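import Pool.Agent.Run7.h745.RV.Iface
import Pool.Agent.H188R3.Finite

/-! Pieces RV_SEP and RV_SF of `Run7.h745.RV`. -/

set_option autoImplicit false

noncomputable section

namespace Run7.h646.RV

open Filter Topology Matrix Pool.Agent.H188R3 Pool.Agent.Helper133.BT Pool.Agent.Helper133.BU
open Run7.h745 Run7.h745.RV

instance fdMA (I : Type) [Fintype I] [DecidableEq I] : FiniteDimensional ℂ (MA I ℂ) := by
  let e : (I → I → ℂ) →ₗ[ℂ] MA I ℂ :=
    { toFun := fun f => MA.of f
      map_add' := fun _ _ => rfl
      map_smul' := fun _ _ => rfl }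
  exact Module.Finite.of_surjective e (fun x => ⟨fun i j => x.en i j, rfl⟩)

instance scMA (I : Type) [Fintype I] [DecidableEq I] : SecondCountableTopology (MA I ℂ) := by
  have : ProperSpace (MA I ℂ) := FiniteDimensional.proper ℂ _
  infer_instance

instance scC (n : ℕ) : SecondCountableTopology C(E, MA (I n) ℂ) := by
  infer_instance

theorem sepA (n : ℕ) : TopologicalSpace.SeparableSpace (A n) := by
  have h : SecondCountableTopology (S n) := inferInstance
  have h2 : TopologicalSpace.SeparableSpace (S n) := inferInstance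
  exact h2

theorem t_SEP : S_SEP := by
  intro L _ j hj
  have hc : ∀ n, Continuous (j n) := fun n =>
    AddMonoidHomClass.continuous_of_bound (j n) 1 (fun x => by
      rw [one_mul]; exact norm_map_le' _ x)
  have h1 : TopologicalSpace.IsSeparable (⋃ n, Set.range (j n)) :=
    TopologicalSpace.IsSeparable.iUnion fun n => by
      have := sepA n
      exact TopologicalSpace.isSeparable_range (hc n)
  have h2 : (Set.univ : Set L) ⊆ closure (⋃ n, Set.range (j n)) := by
    intro y _
    rw [Metric.mem_closure_iff]
    intro ε hε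
    obtain ⟨n, x, hx⟩ := hj.dense y ε hε
    exact ⟨j n x, Set.mem_iUnion.2 ⟨n, x, rfl⟩, by rwa [dist_eq_norm]⟩
  exact TopologicalSpace.isSeparable_univ_iff.1 (h1.closure.mono h2)

instance sfC : IsStablyFiniteRing ℂ := inferInstance

instance sfMA (n : ℕ) : IsStablyFiniteRing (MA (I n) ℂ) := inferInstance

theorem sfProd (n : ℕ) : IsStablyFiniteRing (E → MA (I n) ℂ) := by
  refine ⟨fun k => ⟨fun {x y} hxy => ?_⟩⟩
  have h : ∀ e : E, (y.map fun f => f e) * (x.map fun f => f e) = 1 := by
    intro e
    have h1 : (x.map fun f => f e) * (y.map fun f => f e) = 1 := by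
      have := congrArg (fun m : Matrix (Fin k) (Fin k) (E → MA (I n) ℂ) => m.map fun f => f e) hxy
      have e1 : (x * y).map (fun f => f e) = (x.map fun f => f e) * (y.map fun f => f e) :=
        Matrix.map_mul (f := Pi.evalRingHom (fun _ : E => MA (I n) ℂ) e)
      have e2 : (1 : Matrix (Fin k) (Fin k) (E → MA (I n) ℂ)).map (fun f => f e) = 1 :=
        Matrix.map_one (fun f : E → MA (I n) ℂ => f e) rfl rfl
      rw [← e1, ← e2]
      exact this
    exact ((sfMA n).isDedekindFiniteMonoid k).mul_eq_one_symm h1
  refine Matrix.ext fun a b => ?_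
  funext e
  have h2 := congrFun (congrFun (h e) a) b
  have e1 : (y * x).map (fun f => f e) = (y.map fun f => f e) * (x.map fun f => f e) :=
    Matrix.map_mul (f := Pi.evalRingHom (fun _ : E => MA (I n) ℂ) e)
  have e2 : (1 : Matrix (Fin k) (Fin k) (E → MA (I n) ℂ)).map (fun f => f e) = 1 :=
    Matrix.map_one (fun f : E → MA (I n) ℂ => f e) rfl rfl
  rw [← e1, ← e2] at h2
  exact h2

instance sfA (n : ℕ) : IsStablyFiniteRing (A n) := by
  have := sfProd n
  let f : A n →+* (E → MA (I n) ℂ) :=
    { toFun := fun x => x.at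
      map_one' := rfl
      map_mul' := fun _ _ => rfl
      map_zero' := rfl
      map_add' := fun _ _ => rfl }
  exact sf_of_injective f fun x y h => A.ext fun e => congrFun h e

theorem t_SF : S_SF := by
  intro L _ j hj
  exact hj.stablyFinite

end Run7.h646.RV
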